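import Mathlib

set_option autoImplicit false

namespace CGN84

/-- the permutation whose orbits are the faces of the rotation system `σ` -/
def face {V : Type} {G : SimpleGraph V} (σ : Equiv.Perm G.Dart) : Equiv.Perm G.Dart :=
  σ * Equiv.mk (fun d : G.Dart => d.symm) (fun d : G.Dart => d.symm)
            (fun d => d.symm_symm) (fun d => d.symm_symm)

theorem face_apply {V : Type} {G : SimpleGraph V} (σ : Equiv.Perm G.Dart) (d : G.Dart) :
    face σ d = σ d.symm := rfl

theorem pow_fix {α : Type} (σ : Equiv.Perm α) (d : α) (h : σ d = d) (n : ℕ) :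
    (σ ^ n) d = d := by
  induction n with
  | zero => rfl
  | succ n ih => rw [pow_succ, Equiv.Perm.mul_apply, h, ih]

theorem face_ne {V : Type} {G : SimpleGraph V} (σ : Equiv.Perm G.Dart)
    (h1 : ∀ d, (σ d).fst = d.fst) (d : G.Dart) : face σ d ≠ d := by
  intro h
  have h' : (face σ d).fst = d.snd := by
    rw [face_apply, h1]; rfl
  rw [h] at h'
  exact d.fst_ne_snd h'

theorem face_face_ne {V : Type} [Fintype V] {G : SimpleGraph V} (hG : G.Connected)
    (h3 : 3 ≤ Nat.card V) (σ : Equiv.Perm G.Dart) (h1 : ∀ d, (σ d).fst = d.fst)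
    (h2 : ∀ d d' : G.Dart, d.fst = d'.fst → ∃ n : ℕ, (σ ^ n) d = d') (d : G.Dart) :
    face σ (face σ d) ≠ d := by
  classical
  intro h
  have e1 : (face σ d).fst = d.snd := by
    rw [face_apply, h1]; rfl
  have e2 : (face σ d).snd = d.fst := by
    have := h1 (face σ d).symm
    rw [← face_apply, h] at this
    exact this.symm
  have e3 : face σ d = d.symm := by
    apply SimpleGraph.Dart.ext
    exact Prod.ext e1 e2
  have s1 : σ d.symm = d.symm := by rw [← face_apply]; exact e3
  have s2 : σ d = d := by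
    rw [e3, face_apply, SimpleGraph.Dart.symm_symm] at h; exact h
  have n1 : ∀ v, G.Adj d.fst v → v = d.snd := by
    intro v hv
    obtain ⟨n, hn⟩ := h2 d ⟨(d.fst, v), hv⟩ rfl
    rw [pow_fix σ d s2] at hn
    rw [hn]
  have n2 : ∀ v, G.Adj d.snd v → v = d.fst := by
    intro v hv
    obtain ⟨n, hn⟩ := h2 d.symm ⟨(d.snd, v), hv⟩ rfl
    rw [pow_fix σ d.symm s1] at hn
    have : (d.symm).snd = v := by rw [hn]
    exact this.symm
  have key : ∀ (u w : V) (p : G.Walk u w), (u = d.fst ∨ u = d.snd) → (w = d.fst ∨ w = d.snd) := by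
    intro u w p
    induction p with
    | nil => exact id
    | cons hadj p ih =>
      intro hu
      apply ih
      rcases hu with hu | hu
      · subst hu; right; exact n1 _ hadj
      · subst hu; left; exact n2 _ hadj
  have all : ∀ w : V, w = d.fst ∨ w = d.snd := by
    intro w
    obtain ⟨p⟩ := hG.preconnected d.fst w
    exact key _ _ p (Or.inl rfl)
  have : Nat.card V ≤ 2 := by
    rw [Nat.card_eq_fintype_card, ← Finset.card_univ]
    calc (Finset.univ : Finset V).card ≤ ({d.fst, d.snd} : Finset V).card := by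
          apply Finset.card_le_card
          intro w _
          rcases all w with hw | hw <;> simp [hw]
      _ ≤ 2 := Finset.card_le_two
  omega

/-- Every rotation system of a connected simple graph with at least three vertices has at most
two thirds as many faces as edges. -/
theorem three_faces (V : Type) [Fintype V] (G : SimpleGraph V) (hG : G.Connected)
    (h3 : 3 ≤ Nat.card V) (σ : Equiv.Perm G.Dart) (h1 : ∀ d, (σ d).fst = d.fst)
    (h2 : ∀ d d' : G.Dart, d.fst = d'.fst → ∃ n : ℕ, (σ ^ n) d = d') :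
    3 * Nat.card (MulAction.orbitRel.Quotient
          (Subgroup.zpowers (σ * Equiv.mk (fun d : G.Dart => d.symm) (fun d : G.Dart => d.symm)
            (fun d => d.symm_symm) (fun d => d.symm_symm))) G.Dart)
      ≤ 2 * Nat.card G.edgeSet := by
  classical
  change 3 * Nat.card (MulAction.orbitRel.Quotient (Subgroup.zpowers (face σ)) G.Dart) ≤ _
  have hD : Nat.card G.Dart = 2 * Nat.card G.edgeSet := by
    rw [Nat.card_eq_fintype_card, SimpleGraph.dart_card_eq_twice_card_edges,
      Nat.card_eq_fintype_card, ← SimpleGraph.edgeFinset_card]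
  rw [← hD]
  set Q := MulAction.orbitRel.Quotient (Subgroup.zpowers (face σ)) G.Dart with hQ
  let f : Q × Fin 3 → G.Dart := fun x => ((face σ) ^ (x.2 : ℕ)) (Quotient.out x.1)
  have hmk : ∀ (i : ℕ) (d : G.Dart),
      (Quotient.mk (MulAction.orbitRel (Subgroup.zpowers (face σ)) G.Dart)
        (((face σ) ^ i) d)) = Quotient.mk _ d := by
    intro i d
    apply Quotient.sound
    show (MulAction.orbitRel (Subgroup.zpowers (face σ)) G.Dart) _ _
    rw [MulAction.orbitRel_apply]
    exact ⟨⟨(face σ) ^ i, Subgroup.npow_mem_zpowers _ _⟩, rfl⟩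
  have hne : ∀ (d : G.Dart) (i j : Fin 3), ((face σ) ^ (i : ℕ)) d = ((face σ) ^ (j : ℕ)) d →
      i = j := by
    intro d i j hij
    have a1 := face_ne σ h1 d
    have a2 := face_face_ne hG h3 σ h1 h2 d
    fin_cases i <;> fin_cases j <;> simp [pow_two] at hij ⊢
    · exact a1 hij.symm
    · exact a2 hij.symm
    · exact a1 hij
    · exact a1 hij.symm
    · exact a2 hij
    · exact a1 hij
  have hf : Function.Injective f := by
    rintro ⟨q, i⟩ ⟨q', j⟩ h
    have hq : q = q' := by
      have := congrArg (Quotient.mk (MulAction.orbitRel (Subgroup.zpowers (face σ)) G.Dart)) h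
      simp only [f, hmk] at this
      rw [Quotient.out_eq, Quotient.out_eq] at this
      exact this
    subst hq
    have := hne _ i j h
    rw [this]
  have := Nat.card_le_card_of_injective f hf
  rw [Nat.card_prod, Nat.card_eq_fintype_card (α := Fin 3), Fintype.card_fin] at this
  omega

/-- `|V| ≤ 5 g + 5` follows from `5 |E| ≥ 21 |V| - 60`, `2 g = 2 - |V| + |E| - F`. -/
theorem genus_lower (V : Type) [Fintype V] (G : SimpleGraph V) (hG : G.Connected)
    (h3 : 3 ≤ Nat.card V) (σ : Equiv.Perm G.Dart) (h1 : ∀ d, (σ d).fst = d.fst)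
    (h2 : ∀ d d' : G.Dart, d.fst = d'.fst → ∃ n : ℕ, (σ ^ n) d = d') :
    (Nat.card G.edgeSet : ℤ) - 3 * (Nat.card V : ℤ) + 6 ≤
      3 * (2 - (Nat.card V : ℤ) + (Nat.card G.edgeSet : ℤ)
      - (Nat.card (MulAction.orbitRel.Quotient
          (Subgroup.zpowers (σ * Equiv.mk (fun d : G.Dart => d.symm) (fun d : G.Dart => d.symm)
            (fun d => d.symm_symm) (fun d => d.symm_symm))) G.Dart) : ℤ)) := by
  have h := three_faces V G hG h3 σ h1 h2
  have h' : 3 * ((Nat.card (MulAction.orbitRel.Quotient
          (Subgroup.zpowers (σ * Equiv.mk (fun d : G.Dart => d.symm) (fun d : G.Dart => d.symm)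
            (fun d => d.symm_symm) (fun d => d.symm_symm))) G.Dart) : ℕ) : ℤ)
      ≤ 2 * (Nat.card G.edgeSet : ℤ) := by exact_mod_cast h
  linarith

end CGN84
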