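import Mathlib

set_option autoImplicit false

namespace CGN84

open Finset

/-- `L i` = vertices at distance `i` from `v`. -/
theorem moore (W : Type) [Fintype W] (H : SimpleGraph W) (hH : H.Connected) (v : W) (D s : ℕ)
    (hdeg : ∀ x : W, ∀ T : Finset W, (∀ y ∈ T, H.Adj x y) → T.card ≤ D)
    (hdist : ∀ x, H.dist v x ≤ s) :
    Fintype.card W ≤ 1 + ∑ i ∈ range s, D * (D - 1) ^ i := by
  classical
  set L : ℕ → Finset W := fun i => univ.filter fun x => H.dist v x = i with hL
  have hmem : ∀ i x, x ∈ L i ↔ H.dist v x = i := by
    intro i x; simp [hL]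
  have h0 : (L 0).card ≤ 1 := by
    rw [Finset.card_le_one]
    intro a ha b hb
    rw [hmem] at ha hb
    have ha' := (hH.dist_eq_zero_iff).1 ha
    have hb' := (hH.dist_eq_zero_iff).1 hb
    rw [← ha', ← hb']
  -- a vertex of layer i+1 has a neighbour in layer i
  have hpre : ∀ i x, x ∈ L (i + 1) → ∃ y ∈ L i, H.Adj y x := by
    intro i x hx
    rw [hmem] at hx
    obtain ⟨p, hp⟩ := hH.exists_walk_length_eq_dist v x
    have hlen : p.length = i + 1 := by rw [hp, hx]
    refine ⟨p.getVert i, ?_, ?_⟩
    · rw [hmem]
      have h1 : H.dist v (p.getVert i) ≤ i := by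
        have := SimpleGraph.dist_le (p.take i)
        rw [SimpleGraph.Walk.take_length] at this
        omega
      have h2 : H.dist (p.getVert i) x ≤ 1 := by
        have := SimpleGraph.dist_le (p.drop i)
        rw [SimpleGraph.Walk.drop_length] at this
        omega
      have h3 := hH.dist_triangle (u := v) (v := p.getVert i) (w := x)
      omega
    · have := p.adj_getVert_succ (i := i) (by omega)
      have hlast : p.getVert (i + 1) = x := by rw [← hlen]; exact p.getVert_length
      rw [hlast] at this
      exact this
  have hstep : ∀ i (b : ℕ), (∀ y ∈ L i, (univ.filter fun x => H.Adj y x ∧ x ∈ L (i + 1)).card ≤ b) →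
      (L (i + 1)).card ≤ (L i).card * b := by
    intro i b hb
    have hsub : L (i + 1) ⊆ (L i).biUnion fun y => univ.filter fun x => H.Adj y x ∧ x ∈ L (i + 1) := by
      intro x hx
      obtain ⟨y, hy, hyx⟩ := hpre i x hx
      simp only [mem_biUnion, mem_filter, mem_univ, true_and]
      exact ⟨y, hy, hyx, hx⟩
    calc (L (i + 1)).card ≤ _ := Finset.card_le_card hsub
      _ ≤ (L i).card * b := Finset.card_biUnion_le_card_mul _ _ _ hb
  have h1 : (L 1).card ≤ D := by
    have := hstep 0 D (fun y _ => hdeg y _ (fun x hx => by
      simp only [mem_filter] at hx; exact hx.2.1))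
    calc (L 1).card ≤ (L 0).card * D := this
      _ ≤ 1 * D := Nat.mul_le_mul_right _ h0
      _ = D := one_mul _
  have h2 : ∀ i, (L (i + 1)).card ≤ D * (D - 1) ^ i := by
    intro i
    induction i with
    | zero => simpa using h1
    | succ i ih =>
      have := hstep (i + 1) (D - 1) (by
        intro y hy
        obtain ⟨z, hz, hzy⟩ := hpre i y hy
        set T := univ.filter fun x => H.Adj y x ∧ x ∈ L (i + 1 + 1) with hT
        have hzT : z ∉ T := by
          intro h
          simp only [hT, mem_filter] at h
          have h3 := h.2.2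
          rw [hmem] at h3 hz
          omega
        have := hdeg y (insert z T) (by
          intro x hx
          rw [mem_insert] at hx
          rcases hx with hx | hx
          · rw [hx]; exact hzy.symm
          · simp only [hT, mem_filter] at hx; exact hx.2.1)
        rw [Finset.card_insert_of_notMem hzT] at this
        omega)
      calc (L (i + 1 + 1)).card ≤ (L (i + 1)).card * (D - 1) := this
        _ ≤ (D * (D - 1) ^ i) * (D - 1) := Nat.mul_le_mul_right _ ih
        _ = D * (D - 1) ^ (i + 1) := by ring
  have hcov : (univ : Finset W) ⊆ L 0 ∪ (range s).biUnion fun i => L (i + 1) := by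
    intro x _
    rw [mem_union, mem_biUnion]
    rcases Nat.eq_zero_or_pos (H.dist v x) with h | h
    · left; rw [hmem]; exact h
    · right
      refine ⟨H.dist v x - 1, ?_, ?_⟩
      · rw [mem_range]; have := hdist x; omega
      · rw [hmem]; omega
  calc Fintype.card W = (univ : Finset W).card := Finset.card_univ.symm
    _ ≤ (L 0 ∪ (range s).biUnion fun i => L (i + 1)).card := Finset.card_le_card hcov
    _ ≤ (L 0).card + ((range s).biUnion fun i => L (i + 1)).card := Finset.card_union_le _ _
    _ ≤ 1 + ∑ i ∈ range s, D * (D - 1) ^ i := by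
        apply Nat.add_le_add h0
        refine Finset.card_biUnion_le.trans ?_
        exact Finset.sum_le_sum fun i _ => h2 i

end CGN84
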