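import Mathlib
import Pool.Agent.CGN84.Moore

set_option autoImplicit false

namespace CGN84

open Finset

/-- A cop can make the vertices `D` of the territory `R` forbidden for the robber: he walks along
the path `p 0, .., p s` and stays on the shadow `p (d r)` of the robber's position `r`. -/
def IsOp {V : Type} (G : SimpleGraph V) (R : Finset V) (p : ℕ → V) (s : ℕ) (d : V → ℕ)
    (D : Finset V) : Prop :=
  (∀ j < s, G.Adj (p j) (p (j + 1))) ∧ (∀ x, d x ≤ s) ∧
  (∀ x ∈ R, ∀ y ∈ R, G.Adj x y → d x ≤ d y + 1) ∧ D ⊆ R ∧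
  (∀ x ∈ R, ∀ y ∈ D, (x = y ∨ G.Adj x y) → (p (d x) = y ∨ G.Adj (p (d x)) y))

theorem star_op {V : Type} (G : SimpleGraph V) (R : Finset V) (v : V) (T : Finset V)
    (hT : T ⊆ R) (h : ∀ y ∈ T, v = y ∨ G.Adj v y) :
    IsOp G R (fun _ => v) 0 (fun _ => 0) T := by
  refine ⟨fun j hj => absurd hj (Nat.not_lt_zero j), fun x => le_rfl,
    fun x _ y _ _ => Nat.zero_le _, hT, fun x _ y hy _ => h y hy⟩

theorem path_op {V : Type} [DecidableEq V] (G : SimpleGraph V) (R : Finset V)
    (hR : (G.induce (R : Set V)).Connected) (v w : (R : Set V)) (m : ℕ)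
    (hm : m ≤ (G.induce (R : Set V)).dist v w) :
    ∃ (p : ℕ → V) (s : ℕ) (d : V → ℕ) (D : Finset V), IsOp G R p s d D ∧ m + 1 ≤ D.card := by
  classical
  set H := G.induce (R : Set V) with hH
  obtain ⟨q, hq⟩ := hR.exists_walk_length_eq_dist v w
  have hlen : m ≤ q.length := by rw [hq]; exact hm
  have hd : ∀ j ≤ m, H.dist v (q.getVert j) = j := by
    intro j hj
    have h1 : H.dist v (q.getVert j) ≤ j := by
      have := SimpleGraph.dist_le (q.take j)
      rw [SimpleGraph.Walk.take_length] at this
      omega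
    have h2 : H.dist (q.getVert j) w ≤ q.length - j := by
      have := SimpleGraph.dist_le (q.drop j)
      rw [SimpleGraph.Walk.drop_length] at this
      omega
    have h3 := hR.dist_triangle (u := v) (v := q.getVert j) (w := w)
    omega
  have hlip : ∀ x y : (R : Set V), H.Adj x y → H.dist v x ≤ H.dist v y + 1 := by
    intro x y hxy
    have h3 := hR.dist_triangle (u := v) (v := y) (w := x)
    have h4 : H.dist y x = 1 := SimpleGraph.dist_eq_one_iff_adj.2 hxy.symm
    omega
  refine ⟨fun j => (q.getVert j : V), m,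
    fun x => if h : x ∈ (R : Set V) then min (H.dist v ⟨x, h⟩) m else 0,
    (range (m + 1)).image fun j => (q.getVert j : V), ⟨?_, ?_, ?_, ?_, ?_⟩, ?_⟩
  · intro j hj
    have := q.adj_getVert_succ (i := j) (by omega)
    exact this
  · intro x
    dsimp only
    split_ifs
    · exact min_le_right _ _
    · exact Nat.zero_le _
  · intro x hx y hy hxy
    have hx' : x ∈ (R : Set V) := hx
    have hy' : y ∈ (R : Set V) := hy
    simp only [dif_pos hx', dif_pos hy']
    have := hlip ⟨x, hx'⟩ ⟨y, hy'⟩ hxy
    omega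
  · intro x hx
    rw [mem_image] at hx
    obtain ⟨j, -, rfl⟩ := hx
    exact (q.getVert j).2
  · intro x hx y hy hxy
    rw [mem_image] at hy
    obtain ⟨j, hj, rfl⟩ := hy
    rw [mem_range] at hj
    have hj' : j ≤ m := by omega
    have hx' : x ∈ (R : Set V) := hx
    simp only [dif_pos hx']
    have e1 := hd j hj'
    have h5 : H.dist v ⟨x, hx'⟩ ≤ j + 1 ∧ j ≤ H.dist v ⟨x, hx'⟩ + 1 := by
      rcases hxy with h | h
      · have : (⟨x, hx'⟩ : (R : Set V)) = q.getVert j := Subtype.ext h
        rw [this, e1]; omega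
      · have a1 := hlip ⟨x, hx'⟩ (q.getVert j) h
        have a2 := hlip (q.getVert j) ⟨x, hx'⟩ h.symm
        rw [e1] at a1 a2
        exact ⟨a1, a2⟩
    have h6 : min (H.dist v ⟨x, hx'⟩) m = j ∨ min (H.dist v ⟨x, hx'⟩) m = j + 1 ∨
        min (H.dist v ⟨x, hx'⟩) m + 1 = j := by omega
    have h7 : min (H.dist v ⟨x, hx'⟩) m ≤ m := min_le_right _ _
    rcases h6 with h | h | h
    · left; rw [h]
    · right
      rw [h]
      have := q.adj_getVert_succ (i := j) (by omega)
      exact (this : G.Adj _ _).symm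
    · right
      have := q.adj_getVert_succ (i := min (H.dist v ⟨x, hx'⟩) m) (by omega)
      have h8 : G.Adj (q.getVert (min (H.dist v ⟨x, hx'⟩) m) : V)
        (q.getVert (min (H.dist v ⟨x, hx'⟩) m + 1) : V) := this
      rw [h] at h8
      exact h8
  · rw [Finset.card_image_of_injOn, card_range]
    intro i hi j hj hij
    rw [coe_range, Set.mem_Iio] at hi hj
    have : q.getVert i = q.getVert j := Subtype.ext hij
    have e1 := hd i (by omega)
    have e2 := hd j (by omega)
    rw [this, e2] at e1
    exact e1.symm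

theorem op_of_card {V : Type} [Fintype V] [DecidableEq V] (G : SimpleGraph V) (R : Finset V)
    (hR : (G.induce (R : Set V)).Connected) (t : ℕ)
    (h : 1 + ∑ i ∈ range t, t * (t - 1) ^ i < R.card) :
    ∃ (p : ℕ → V) (s : ℕ) (d : V → ℕ) (D : Finset V), IsOp G R p s d D ∧ t + 2 ≤ D.card := by
  classical
  by_cases h1 : ∃ x : (R : Set V), ∃ T : Finset (R : Set V),
      (∀ y ∈ T, (G.induce (R : Set V)).Adj x y) ∧ t + 1 ≤ T.card
  · obtain ⟨x, T, hT, hc⟩ := h1
    refine ⟨_, _, _, insert (x : V) (T.image Subtype.val), star_op G R (x : V) _ ?_ ?_, ?_⟩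
    · intro y hy
      rw [mem_insert, mem_image] at hy
      rcases hy with rfl | ⟨z, -, rfl⟩
      · exact x.2
      · exact z.2
    · intro y hy
      rw [mem_insert, mem_image] at hy
      rcases hy with hy | ⟨z, hz, rfl⟩
      · left; exact hy.symm
      · right; exact hT z hz
    · rw [card_insert_of_notMem, card_image_of_injective _ Subtype.val_injective]
      · omega
      · intro hx
        rw [mem_image] at hx
        obtain ⟨z, hz, hzx⟩ := hx
        have := hT z hz
        rw [Subtype.ext hzx] at this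
        exact this.ne rfl
  · by_cases h2 : ∃ v w : (R : Set V), t + 1 ≤ (G.induce (R : Set V)).dist v w
    · obtain ⟨v, w, hvw⟩ := h2
      exact path_op G R hR v w (t + 1) hvw
    · exfalso
      push Not at h1 h2
      obtain ⟨v⟩ := hR.nonempty
      have := moore (R : Set V) (G.induce (R : Set V)) hR v t t
        (fun x T hT => by have := h1 x T hT; omega)
        (fun x => by have := h2 v x; omega)
      have hcard : Fintype.card (R : Set V) = R.card := by
        simp
      omega

/-- the number of vertices one more cop takes from a connected territory with `n` vertices -/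
def opn (n : ℕ) : ℕ := if n < 3 then n else if n < 6 then 3 else if n < 23 then 4 else 5

theorem op_exists {V : Type} [Fintype V] [DecidableEq V] (G : SimpleGraph V) (R : Finset V)
    (hR : (G.induce (R : Set V)).Connected) :
    ∃ (p : ℕ → V) (s : ℕ) (d : V → ℕ) (D : Finset V), IsOp G R p s d D ∧ opn R.card ≤ D.card := by
  classical
  obtain ⟨v⟩ := hR.nonempty
  have hpos : 0 < R.card := Finset.card_pos.2 ⟨v, v.2⟩
  rcases Nat.lt_or_ge R.card 2 with h | h
  · refine ⟨_, _, _, {(v : V)}, star_op G R (v : V) _ ?_ ?_, ?_⟩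
    · intro y hy; rw [mem_singleton] at hy; rw [hy]; exact v.2
    · intro y hy; rw [mem_singleton] at hy; left; exact hy.symm
    · rw [card_singleton]; unfold opn; split_ifs <;> omega
  rcases Nat.lt_or_ge R.card 3 with h3 | h3
  · obtain ⟨p, s, d, D, h4, h5⟩ := op_of_card G R hR 0 (by simp; omega)
    refine ⟨p, s, d, D, h4, le_trans ?_ h5⟩
    unfold opn; split_ifs <;> omega
  rcases Nat.lt_or_ge R.card 6 with h6 | h6
  · obtain ⟨p, s, d, D, h4, h5⟩ := op_of_card G R hR 1 (by simp; omega)
    refine ⟨p, s, d, D, h4, le_trans ?_ h5⟩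
    unfold opn; split_ifs <;> omega
  rcases Nat.lt_or_ge R.card 23 with h23 | h23
  · obtain ⟨p, s, d, D, h4, h5⟩ := op_of_card G R hR 2 (by simp [Finset.sum_range_succ]; omega)
    refine ⟨p, s, d, D, h4, le_trans ?_ h5⟩
    unfold opn; split_ifs <;> omega
  · obtain ⟨p, s, d, D, h4, h5⟩ := op_of_card G R hR 3 (by simp [Finset.sum_range_succ]; omega)
    refine ⟨p, s, d, D, h4, le_trans ?_ h5⟩
    unfold opn; split_ifs <;> omega

end CGN84
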